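import Mathlib

/-! Konane on a row: the triple `(1,2,2)` is a further exception to the decomposition
(MP_914aa3_co, Q1, negated form). -/

namespace Pool.Agent.Results.MP_914aa3_co.OneTwoTwoException

/-- A partizan ruleset: `left p q` (`right p q`) says that Left (Right) may move from `p` to `q`. -/
structure Ruleset (P : Type*) where
  left : P → P → Prop
  right : P → P → Prop

/-- Disjunctive sum. -/
def Ruleset.sum {P Q : Type*} (A : Ruleset P) (B : Ruleset Q) : Ruleset (P × Q) where
  left a b := (A.left a.1 b.1 ∧ b.2 = a.2) ∨ (b.1 = a.1 ∧ B.left a.2 b.2)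
  right a b := (A.right a.1 b.1 ∧ b.2 = a.2) ∨ (b.1 = a.1 ∧ B.right a.2 b.2)

/-- The negative: the roles of the players are exchanged. -/
def Ruleset.neg {P : Type*} (A : Ruleset P) : Ruleset P where
  left := A.right
  right := A.left

/-- Left wins (normal play) when Right moves first. -/
inductive LeftWinsSecond {P : Type*} (A : Ruleset P) : P → Prop
  | intro (p : P) (reply : ∀ q, A.right p q → P) (legal : ∀ q h, A.left q (reply q h))
      (wins : ∀ q h, LeftWinsSecond A (reply q h)) : LeftWinsSecond A p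

/-- Right wins when Left moves first. -/
def RightWinsSecond {P : Type*} (A : Ruleset P) (p : P) : Prop := LeftWinsSecond A.neg p

/-- The value is zero: the player who moves second wins. -/
def IsZero {P : Type*} (A : Ruleset P) (p : P) : Prop := LeftWinsSecond A p ∧ RightWinsSecond A p

/-- `Jumps d S x T`: in the row with occupied cells `S` the stone in cell `x` makes one or several
jumps in direction `d`, and `T` is the resulting set of occupied cells. A jump goes over the adjacent
stone in `x + d` into the empty cell `x + 2 * d`; the jumped stone is removed. -/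
inductive Jumps (d : ℤ) : Finset ℤ → ℤ → Finset ℤ → Prop
  | one (S : Finset ℤ) (x : ℤ) (h0 : x ∈ S) (h1 : x + d ∈ S) (h2 : x + 2 * d ∉ S) :
      Jumps d S x (insert (x + 2 * d) ((S.erase x).erase (x + d)))
  | more (S : Finset ℤ) (x : ℤ) (T : Finset ℤ) (h0 : x ∈ S) (h1 : x + d ∈ S) (h2 : x + 2 * d ∉ S)
      (h : Jumps d (insert (x + 2 * d) ((S.erase x).erase (x + d))) (x + 2 * d) T) : Jumps d S x T

/-- Konane on one row: the stones in odd cells are white, those in even cells are black; Black is
Left and White is Right. (A stone always stays on cells of the same parity, and neighbouring stones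
have different colours.) -/
def konane : Ruleset (Finset ℤ) where
  left S T := ∃ x, Even x ∧ (Jumps 1 S x T ∨ Jumps (-1) S x T)
  right S T := ∃ x, Odd x ∧ (Jumps 1 S x T ∨ Jumps (-1) S x T)

/-- The position `S(k, m·, n)`. -/
noncomputable def S (k m n : ℤ) : Finset ℤ :=
  Finset.Icc 1 k ∪ Finset.Icc (k + 2) (k + m + 1) ∪ Finset.Icc (k + m + 4) (k + m + n + 3)

/-- The first two runs, `V_L = S(k, m)`. -/
noncomputable def VL (k m : ℤ) : Finset ℤ := Finset.Icc 1 k ∪ Finset.Icc (k + 2) (k + m + 1)

/-- The third run, in place. -/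
noncomputable def VR (k m n : ℤ) : Finset ℤ := Finset.Icc (k + m + 4) (k + m + n + 3)

/-- `S(k, m·, n)` decomposes: its value is `V_L + V_R`, that is, the sum of the three games
`S(k, m·, n)`, `-V_L` and `-V_R` is zero. -/
def Decomposes (k m n : ℤ) : Prop :=
  IsZero ((konane.sum konane.neg).sum konane.neg) ((S k m n, VL k m), VR k m n)

/-! ### A verified solver on lists of cells -/

/-- One jump on a list of occupied cells. -/
def jumpL (d : ℤ) (L : List ℤ) (x : ℤ) : List ℤ :=
  (x + 2 * d) :: L.filter (fun y => y ≠ x ∧ y ≠ x + d)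

def jumpsL (d : ℤ) : ℕ → List ℤ → ℤ → List (List ℤ)
  | 0, _, _ => []
  | n + 1, L, x =>
    if x ∈ L ∧ x + d ∈ L ∧ x + 2 * d ∉ L then jumpL d L x :: jumpsL d n (jumpL d L x) (x + 2 * d)
    else []

theorem jumpL_toFinset (d : ℤ) (L : List ℤ) (x : ℤ) :
    (jumpL d L x).toFinset = insert (x + 2 * d) ((L.toFinset.erase x).erase (x + d)) := by
  ext y
  simp only [jumpL, List.toFinset_cons, Finset.mem_insert, List.mem_toFinset, List.mem_filter,
    Finset.mem_erase, decide_eq_true_eq]
  tauto

theorem jumpL_length {d : ℤ} {L : List ℤ} {x : ℤ} (hd : d ≠ 0) (h0 : x ∈ L) (h1 : x + d ∈ L) :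
    (jumpL d L x).length + 1 ≤ L.length := by
  have h2 : (L.filter (fun y => decide (y ≠ x ∧ y ≠ x + d))).length +
      (L.filter (fun y => !decide (y ≠ x ∧ y ≠ x + d))).length = L.length := by
    rw [← List.length_append]
    exact (List.filter_append_perm (fun y => decide (y ≠ x ∧ y ≠ x + d)) L).length_eq
  have h3 : 2 ≤ (L.filter (fun y => !decide (y ≠ x ∧ y ≠ x + d))).length := by
    have hx : x ∈ L.filter (fun y => !decide (y ≠ x ∧ y ≠ x + d)) := by
      simp [h0]
    have hy : x + d ∈ L.filter (fun y => !decide (y ≠ x ∧ y ≠ x + d)) := by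
      simp [h1]
    have hne : x ≠ x + d := by
      intro h
      apply hd
      linarith
    have hsub : ({x, x + d} : Finset ℤ) ⊆ (L.filter (fun y => !decide (y ≠ x ∧ y ≠ x + d))).toFinset := by
      intro z hz
      simp only [Finset.mem_insert, Finset.mem_singleton] at hz
      rcases hz with rfl | rfl
      · exact List.mem_toFinset.2 hx
      · exact List.mem_toFinset.2 hy
    have h4 := Finset.card_le_card hsub
    rw [Finset.card_pair hne] at h4
    exact h4.trans (List.toFinset_card_le _)
  simp only [jumpL, List.length_cons]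
  omega

theorem jumpsL_complete {d : ℤ} (hd : d ≠ 0) {T : Finset ℤ} {S : Finset ℤ} {x : ℤ} (h : Jumps d S x T) :
    ∀ (n : ℕ) (L : List ℤ), L.length ≤ n → L.toFinset = S → ∃ M ∈ jumpsL d n L x, M.toFinset = T := by
  induction h with
  | one S x h0 h1 h2 =>
    intro n L hn hL
    subst hL
    rw [List.mem_toFinset] at h0 h1 h2
    have hpos : 0 < L.length := List.length_pos_of_mem h0
    obtain ⟨n, rfl⟩ : ∃ n', n = n' + 1 := ⟨n - 1, by omega⟩
    refine ⟨jumpL d L x, ?_, jumpL_toFinset d L x⟩
    rw [jumpsL, if_pos ⟨h0, h1, h2⟩]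
    exact List.mem_cons_self
  | more S x T h0 h1 h2 h ih =>
    intro n L hn hL
    subst hL
    rw [List.mem_toFinset] at h0 h1 h2
    have hpos : 0 < L.length := List.length_pos_of_mem h0
    obtain ⟨n, rfl⟩ : ∃ n', n = n' + 1 := ⟨n - 1, by omega⟩
    have hlen := jumpL_length hd h0 h1
    obtain ⟨M, hM, hMT⟩ := ih n (jumpL d L x) (by omega) (jumpL_toFinset d L x)
    refine ⟨M, ?_, hMT⟩
    rw [jumpsL, if_pos ⟨h0, h1, h2⟩]
    exact List.mem_cons_of_mem _ hM

theorem jumpsL_sound {d : ℤ} : ∀ (n : ℕ) (L : List ℤ) (x : ℤ) (M : List ℤ), M ∈ jumpsL d n L x →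
    Jumps d L.toFinset x M.toFinset := by
  intro n
  induction n with
  | zero =>
    intro L x M h
    simp [jumpsL] at h
  | succ n ih =>
    intro L x M h
    rw [jumpsL] at h
    by_cases hc : x ∈ L ∧ x + d ∈ L ∧ x + 2 * d ∉ L
    · rw [if_pos hc] at h
      have e0 : x ∈ L.toFinset := List.mem_toFinset.2 hc.1
      have e1 : x + d ∈ L.toFinset := List.mem_toFinset.2 hc.2.1
      have e2 : x + 2 * d ∉ L.toFinset := fun h => hc.2.2 (List.mem_toFinset.1 h)
      rcases List.mem_cons.1 h with rfl | h
      · rw [jumpL_toFinset]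
        exact .one _ _ e0 e1 e2
      · have := ih _ _ _ h
        rw [jumpL_toFinset] at this
        exact .more _ _ _ e0 e1 e2 this
    · rw [if_neg hc] at h
      simp at h

/-- All moves with the stones in the cells of parity `r`. -/
def movesL (r : ℤ) (L : List ℤ) : List (List ℤ) :=
  L.flatMap fun x => if x % 2 = r then jumpsL 1 L.length L x ++ jumpsL (-1) L.length L x else []

theorem jumps_mem {d : ℤ} {S T : Finset ℤ} {x : ℤ} (h : Jumps d S x T) : x ∈ S := by
  cases h <;> assumption

theorem movesL_complete {r : ℤ} {L : List ℤ} {T : Finset ℤ} {x : ℤ} (hx : x % 2 = r)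
    (h : Jumps 1 L.toFinset x T ∨ Jumps (-1) L.toFinset x T) : ∃ M ∈ movesL r L, M.toFinset = T := by
  have hxL : x ∈ L := by
    rcases h with h | h <;> exact List.mem_toFinset.1 (jumps_mem h)
  rcases h with h | h
  · obtain ⟨M, hM, hT⟩ := jumpsL_complete (by norm_num) h L.length L le_rfl rfl
    refine ⟨M, List.mem_flatMap.2 ⟨x, hxL, ?_⟩, hT⟩
    rw [if_pos hx]
    exact List.mem_append_left _ hM
  · obtain ⟨M, hM, hT⟩ := jumpsL_complete (by norm_num) h L.length L le_rfl rfl
    refine ⟨M, List.mem_flatMap.2 ⟨x, hxL, ?_⟩, hT⟩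
    rw [if_pos hx]
    exact List.mem_append_right _ hM

theorem movesL_sound {r : ℤ} {L M : List ℤ} (h : M ∈ movesL r L) :
    ∃ x, x % 2 = r ∧ (Jumps 1 L.toFinset x M.toFinset ∨ Jumps (-1) L.toFinset x M.toFinset) := by
  obtain ⟨x, -, hx⟩ := List.mem_flatMap.1 h
  by_cases hr : x % 2 = r
  · rw [if_pos hr] at hx
    refine ⟨x, hr, ?_⟩
    rcases List.mem_append.1 hx with h | h
    · exact Or.inl (jumpsL_sound _ _ _ _ h)
    · exact Or.inr (jumpsL_sound _ _ _ _ h)
  · rw [if_neg hr] at hx
    simp at hx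

theorem left_complete {L : List ℤ} {T : Finset ℤ} (h : konane.left L.toFinset T) :
    ∃ M ∈ movesL 0 L, M.toFinset = T := by
  obtain ⟨x, hx, h⟩ := h
  exact movesL_complete (Int.even_iff.1 hx) h

theorem right_complete {L : List ℤ} {T : Finset ℤ} (h : konane.right L.toFinset T) :
    ∃ M ∈ movesL 1 L, M.toFinset = T := by
  obtain ⟨x, hx, h⟩ := h
  exact movesL_complete (Int.odd_iff.1 hx) h

theorem left_sound {L M : List ℤ} (h : M ∈ movesL 0 L) : konane.left L.toFinset M.toFinset := by
  obtain ⟨x, hx, h⟩ := movesL_sound h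
  exact ⟨x, Int.even_iff.2 hx, h⟩

theorem right_sound {L M : List ℤ} (h : M ∈ movesL 1 L) : konane.right L.toFinset M.toFinset := by
  obtain ⟨x, hx, h⟩ := movesL_sound h
  exact ⟨x, Int.odd_iff.2 hx, h⟩

/-- The states of the solver: three boards, the second and the third negated. -/
abbrev State : Type := (List ℤ × List ℤ) × List ℤ

/-- The three boards as sets of cells. -/
def board (s : State) : (Finset ℤ × Finset ℤ) × Finset ℤ :=
  ((s.1.1.toFinset, s.1.2.toFinset), s.2.toFinset)

/-- Left's moves. -/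
def leftL (s : State) : List State :=
  (movesL 0 s.1.1).map (fun M => ((M, s.1.2), s.2)) ++
    ((movesL 1 s.1.2).map (fun M => ((s.1.1, M), s.2)) ++ (movesL 1 s.2).map (fun M => (s.1, M)))

/-- Right's moves. -/
def rightL (s : State) : List State :=
  (movesL 1 s.1.1).map (fun M => ((M, s.1.2), s.2)) ++
    ((movesL 0 s.1.2).map (fun M => ((s.1.1, M), s.2)) ++ (movesL 0 s.2).map (fun M => (s.1, M)))

/-- The sum of the three games. -/
def three : Ruleset ((Finset ℤ × Finset ℤ) × Finset ℤ) := (konane.sum konane.neg).sum konane.neg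

theorem leftL_sound {s t : State} (h : t ∈ leftL s) : three.left (board s) (board t) := by
  simp only [leftL, List.mem_append, List.mem_map] at h
  rcases h with ⟨M, hM, rfl⟩ | ⟨M, hM, rfl⟩ | ⟨M, hM, rfl⟩
  · exact Or.inl ⟨Or.inl ⟨left_sound hM, rfl⟩, rfl⟩
  · exact Or.inl ⟨Or.inr ⟨rfl, right_sound hM⟩, rfl⟩
  · exact Or.inr ⟨rfl, right_sound hM⟩

theorem rightL_complete {s : State} {q : (Finset ℤ × Finset ℤ) × Finset ℤ}
    (h : three.right (board s) q) : ∃ t ∈ rightL s, board t = q := by
  obtain ⟨⟨q1, q2⟩, q3⟩ := q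
  rcases h with ⟨⟨h1, h2⟩ | ⟨h1, h2⟩, h3⟩ | ⟨h1, h2⟩
  · obtain ⟨M, hM, hT⟩ := right_complete h1
    simp only at h2 h3 hT
    subst h2 h3 hT
    exact ⟨((M, s.1.2), s.2), List.mem_append_left _ (List.mem_map.2 ⟨M, hM, rfl⟩), rfl⟩
  · obtain ⟨M, hM, hT⟩ := left_complete h2
    simp only at h1 h3 hT
    subst h1 h3 hT
    exact ⟨((s.1.1, M), s.2), List.mem_append_right _ (List.mem_append_left _
      (List.mem_map.2 ⟨M, hM, rfl⟩)), rfl⟩
  · obtain ⟨M, hM, hT⟩ := left_complete h2
    simp only at h1 hT
    subst hT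
    exact ⟨(s.1, M), List.mem_append_right _ (List.mem_append_right _
      (List.mem_map.2 ⟨M, hM, rfl⟩)), Prod.ext h1.symm rfl⟩

/-- The solver. -/
def solve : ℕ → State → Bool
  | 0, _ => false
  | n + 1, s => (rightL s).all fun t => (leftL t).any fun u => solve n u

theorem solve_sound : ∀ (n : ℕ) (s : State), solve n s = true → LeftWinsSecond three (board s) := by
  intro n
  induction n with
  | zero =>
    intro s h
    simp [solve] at h
  | succ n ih =>
    intro s h
    rw [solve, List.all_eq_true] at h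
    have key : ∀ q, three.right (board s) q → ∃ r, three.left q r ∧ LeftWinsSecond three r := by
      intro q hq
      obtain ⟨t, ht, rfl⟩ := rightL_complete hq
      obtain ⟨u, hu, hs⟩ := List.any_eq_true.1 (h t ht)
      exact ⟨board u, leftL_sound hu, ih u hs⟩
    choose! f hf1 hf2 using key
    exact .intro _ (fun q _ => f q) (fun q h => hf1 q h) (fun q h => hf2 q h)

/-- The two players cannot both win. -/
theorem no_both {P : Type*} (A : Ruleset P) {q : P} (hq : LeftWinsSecond A q) :
    ∀ p, A.left p q → ¬ RightWinsSecond A p := by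
  induction hq with
  | intro q reply legal wins ih =>
    intro p hpq hb
    cases hb with
    | intro _ reply' legal' wins' =>
      have h1 := legal' q hpq
      have h2 := wins' q hpq
      exact ih _ h1 _ (legal _ h1) h2

/-- The position `S(1, 2·, 2)` (white 1; white 3, black 4; white 7, black 8) does not decompose. -/
theorem not_decomposes : ¬ Decomposes 1 2 2 := by
  have e1 : S 1 2 2 = [1, 3, 4, 7, 8].toFinset := by decide
  have e2 : VL 1 2 = [1, 3, 4].toFinset := by decide
  have e3 : VR 1 2 2 = [7, 8].toFinset := by decide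
  rintro ⟨-, h⟩
  rw [e1, e2, e3] at h
  have h1 : solve 6 (([1, 3, 4, 7, 8], [5, 1]), [7, 8]) = true := by decide +kernel
  have h2 := solve_sound _ _ h1
  have h3 : ((([1, 3, 4, 7, 8], [5, 1]), [7, 8]) : State) ∈ leftL (([1, 3, 4, 7, 8], [1, 3, 4]), [7, 8]) := by
    decide +kernel
  exact no_both three h2 _ (leftL_sound h3) h

/-- **Theorem.** Some triple of positive integers that is not of the form `(2j, 2j, 2k')` with `j` odd
does not decompose, namely `(1, 2, 2)`. -/
theorem result : ∃ k m n : ℤ, 0 < k ∧ 0 < m ∧ 0 < n ∧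
    (¬ ∃ j k' : ℤ, Odd j ∧ k = 2 * j ∧ m = 2 * j ∧ n = 2 * k') ∧ ¬ Decomposes k m n := by
  refine ⟨1, 2, 2, by norm_num, by norm_num, by norm_num, ?_, not_decomposes⟩
  rintro ⟨j, k', -, h, -⟩
  omega

end Pool.Agent.Results.MP_914aa3_co.OneTwoTwoException
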